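import Mathlib
import Pool.Agent.Run7.h489.GF.Most

set_option autoImplicit false

/-!
# Vojta's inequality on `Y × P^(n-1)` for divisors whose fibres are unions of hyperplanes

Let `K` be a number field and `S` a finite set of places containing the archimedean ones. Let
`R(u, x) = ∑_a u^a R_a(x)` be a polynomial in `u_1^(±1), ..., u_m^(±1)` and `x_1, ..., x_n`, homogeneous
of degree `N` in `x`. Let `Y` be the toric variety of the Newton polytope of `R` with respect to `u`, with
the boundary `Δ`. The divisor `D` is the closure of `R = 0` in `X = Y × P^(n-1)`. The assumption is that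
the fibres of `D` over the points `u` of the torus are unions of `N` hyperplanes over the algebraic
closure (for `n = 2` this is no condition). The divisor may be irreducible, for example if `R` is the norm
of a linear form over a finite extension of `K(u)`. The condition for a vertex `a` of the polytope is that
the `N` hyperplanes in the fibre over the torus-fixed point which belongs to `a` are in general position;
this is a part of the condition that `D` and the boundary have normal crossings.

Since the canonical class of `X` is `-Δ × P^(n-1) - n (Y × H)`, Vojta's conjecture for the divisor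
`Δ × P^(n-1) + D` predicts for `S`-units `u_i` the inequality
`m_(S, D)(u, x) ≤ n h(x) + ε (h(u) + h(x)) + O(1)` outside of a proper closed subset. We prove it for
`100%` of the tuples of `S`-units `u` and all `x` with `h(x) ≤ B h(u)`. For arbitrary points we prove it
for the proximity function of the places where `u` is close to a torus-fixed point, up to a multiple of
the contributions of the places outside of `S` to the heights of the `u_i`.
-/

namespace Pool.Agent.Results.MP_17a322_nt.HyperplaneFibrations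

open NumberField IsDedekindDomain Height

section defs

variable {K : Type} [Field K] {m n : ℕ}

/-- The monomial `u^a`. -/
def monomialAt (u : Fin m → K) (a : Fin m → ℤ) : K := ∏ i, u i ^ a i

/-- The linear form with the coefficients `ℓ_i`. -/
noncomputable def linearForm {L : Type} [Field L] (ℓ : Fin n → L) : MvPolynomial (Fin n) L :=
  ∑ i, MvPolynomial.C (ℓ i) * MvPolynomial.X i

/-- The form `R(u, x)` in `x`, where `R = ∑_a u^a R_a(x)`. -/
noncomputable def fibre (R : (Fin m → ℤ) →₀ MvPolynomial (Fin n) K) (u : Fin m → K) :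
    MvPolynomial (Fin n) K := ∑ a ∈ R.support, MvPolynomial.C (monomialAt u a) * R a

/-- `R` is homogeneous of degree `N` in `x`, and the fibres of the divisor `R = 0` over the points of the
torus are unions of `N` hyperplanes over the algebraic closure. -/
structure HasHyperplaneFibres (R : (Fin m → ℤ) →₀ MvPolynomial (Fin n) K) (N : ℕ) : Prop where
  homogeneous : ∀ a, (R a).IsHomogeneous N
  splits : ∀ u : Fin m → K, (∀ i, u i ≠ 0) → ∃ ℓ : Fin N → Fin n → AlgebraicClosure K,
    MvPolynomial.map (algebraMap K (AlgebraicClosure K)) (fibre R u) = ∏ j, linearForm (ℓ j)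

/-- The form `P` defines `N` hyperplanes in general position: it is a product of `N` linear forms over
the algebraic closure such that any at most `n` of them are linearly independent. -/
def GeneralPosition (N : ℕ) (P : MvPolynomial (Fin n) K) : Prop :=
  ∃ ℓ : Fin N → Fin n → AlgebraicClosure K,
    MvPolynomial.map (algebraMap K (AlgebraicClosure K)) P = ∏ j, linearForm (ℓ j) ∧
      ∀ s : Finset (Fin N), s.card ≤ n → LinearIndependent (AlgebraicClosure K) fun j : s => ℓ j

/-- `a` is a vertex of the Newton polytope: it is the only maximum of a linear function. -/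
def IsVertex (R : (Fin m → ℤ) →₀ MvPolynomial (Fin n) K) (a : Fin m → ℤ) : Prop :=
  a ∈ R.support ∧ ∃ θ : Fin m → ℝ, ∀ b ∈ R.support, b ≠ a →
    ∑ i, (b i : ℝ) * θ i < ∑ i, (a i : ℝ) * θ i

/-- For some `a` for which `R_a` defines hyperplanes in general position, all other monomials `u^b` in
`R` satisfy `|u^b|_v ≤ e^(-t) |u^a|_v`: the point `u` is close to the torus-fixed point of `a`. -/
def Near (R : (Fin m → ℤ) →₀ MvPolynomial (Fin n) K) (N : ℕ) (v : AbsoluteValue K ℝ)
    (u : Fin m → K) (t : ℝ) : Prop :=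
  ∃ a ∈ R.support, GeneralPosition N (R a) ∧
    ∀ b ∈ R.support, b ≠ a → v (monomialAt u b) ≤ Real.exp (-t) * v (monomialAt u a)

/-- The local height of `D`: `log (max_a |u^a| (max |x_i|)^N / |R(u, x)|)`. -/
noncomputable def weil (R : (Fin m → ℤ) →₀ MvPolynomial (Fin n) K) (N : ℕ)
    (v : AbsoluteValue K ℝ) (u : Fin m → K) (x : Fin n → K) : ℝ :=
  Real.log (⨆ a : (R.support : Set (Fin m → ℤ)), v (monomialAt u a.1)) +
    N * Real.log (⨆ i, v (x i)) - Real.log (v (MvPolynomial.eval x (fibre R u)))

end defs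

section arith

variable {K : Type} [Field K] [NumberField K] {m n : ℕ}

/-- The sum of a function over the places in `S`: the archimedean places, with their
multiplicities, and the given primes. -/
noncomputable def sumS (S : Finset (HeightOneSpectrum (𝓞 K))) (g : AbsoluteValue K ℝ → ℝ) : ℝ :=
  ∑ v : InfinitePlace K, v.mult * g v.1 + ∑ v ∈ S, g (FinitePlace.mk v).1

/-- The contribution of the places outside of `S` to `2 h(x) = ∑ |log |x|_v|`. -/
noncomputable def outside (S : Finset (HeightOneSpectrum (𝓞 K))) (x : K) : ℝ :=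
  2 * logHeight₁ x - sumS S fun v => |Real.log (v x)|

/-- The point `(u, x)` does not lie on one of the moving hyperplanes `∑ P_i(u) x_i = 0`. -/
def Avoids (Z : Finset (Fin n → MvPolynomial (Fin m) K)) (u : Fin m → K) (x : Fin n → K) : Prop :=
  ∀ P ∈ Z, ∑ i, MvPolynomial.eval u (P i) * x i ≠ 0

end arith

open Classical in
/-- (Heights are relative to `K`, not divided by the degree.) Let the fibres of `D` be unions of `N`
hyperplanes in `P^(n-1)`, `n ≥ 2`, and let `ε > 0`.
(1) For every `δ > 0` there are finitely many moving hyperplanes `Z` and constants `C₁`, `C₂` such that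
all points `(u, x)` of the product of the torus and `P^(n-1)` which do not lie on `D` and `Z` satisfy
`∑_v λ_(D, v)(u, x) ≤ n h(x) + ε (h(x) + ∑_i h(u_i)) + C₁ ∑_i outside(u_i) + C₂`, where `v` runs over the
places of `S` where `u` is close to a torus-fixed point over which the hyperplanes are in general
position: `|u^b|_v ≤ e^(-δ (h(u) + h(x))) |u^a|_v`.
(2) The term `outside(x)` is nonnegative, and it vanishes for `S`-units.
(3) Let `#S ≥ 2`, and let the hyperplanes be in general position over all torus-fixed points. For every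
`η > 0` and `B` there are finitely many moving hyperplanes `Z` and a constant `C` such that for all large
`T` the following holds for all but at most `η N(T)` of the `N(T)` tuples `u ∈ (O_S^*)^m` with all
`h(u_i) ≤ T`: all `x ∈ P^(n-1)(K)` with `h(x) ≤ B T` such that `(u, x)` does not lie on `D` and `Z` satisfy
`m_(S, D)(u, x) ≤ n h(x) + ε (h(x) + ∑_i h(u_i)) + C`. -/
theorem result (K : Type) [Field K] [NumberField K] (S : Finset (HeightOneSpectrum (𝓞 K)))
    (m n N : ℕ) (hn : 2 ≤ n) (R : (Fin m → ℤ) →₀ MvPolynomial (Fin n) K)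
    (hR : HasHyperplaneFibres R N) (ε : ℝ) (hε : 0 < ε) :
    (∀ δ : ℝ, 0 < δ →
      ∃ (Z : Finset (Fin n → MvPolynomial (Fin m) K)) (C₁ C₂ : ℝ), (∀ P ∈ Z, P ≠ 0) ∧
        ∀ (u : Fin m → K) (x : Fin n → K), (∀ i, u i ≠ 0) → x ≠ 0 →
          MvPolynomial.eval x (fibre R u) ≠ 0 → Avoids Z u x →
          sumS S (fun v => if Near R N v u (δ * (∑ i, logHeight₁ (u i) + logHeight x))
            then weil R N v u x else 0) ≤
            n * logHeight x + ε * (logHeight x + ∑ i, logHeight₁ (u i)) +
              C₁ * ∑ i, outside S (u i) + C₂) ∧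
    (∀ x : K, x ≠ 0 → 0 ≤ outside S x ∧ ∀ t ∈ (S : Set (HeightOneSpectrum (𝓞 K))).unit K,
      x = t → outside S x = 0) ∧
    (2 ≤ Fintype.card (InfinitePlace K) + S.card → R ≠ 0 →
      (∀ a, IsVertex R a → GeneralPosition N (R a)) → ∀ η B : ℝ, 0 < η →
      ∃ (Z : Finset (Fin n → MvPolynomial (Fin m) K)) (C T₀ : ℝ), (∀ P ∈ Z, P ≠ 0) ∧
        ∀ T : ℝ, T₀ ≤ T →
          (({u : Fin m → Kˣ | (∀ i, u i ∈ (S : Set (HeightOneSpectrum (𝓞 K))).unit K ∧
              logHeight₁ (u i : K) ≤ T) ∧
            ∃ x : Fin n → K, x ≠ 0 ∧ MvPolynomial.eval x (fibre R fun i => (u i : K)) ≠ 0 ∧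
              logHeight x ≤ B * T ∧ Avoids Z (fun i => (u i : K)) x ∧
              n * logHeight x + ε * (logHeight x + ∑ i, logHeight₁ (u i : K)) + C <
                sumS S fun v => weil R N v (fun i => (u i : K)) x}.ncard : ℕ) : ℝ) ≤
            η * (({u : Fin m → Kˣ | ∀ i, u i ∈ (S : Set (HeightOneSpectrum (𝓞 K))).unit K ∧
              logHeight₁ (u i : K) ≤ T}.ncard : ℕ) : ℝ)) := by
  have hsum : ∀ g : AbsoluteValue K ℝ → ℝ, sumS S g =
      ∑ v ∈ Pool.Agent.R404.TC.Sp S, Pool.Agent.W180.OP.wt v * g (Pool.Agent.W180.OP.av v) := by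
    intro g
    unfold sumS Pool.Agent.R404.TC.Sp
    rw [Finset.sum_disjSum]
    congr 1
    refine Finset.sum_congr rfl fun v _ => ?_
    show _ = (1 : ℝ) * g (FinitePlace.mk v).1
    rw [one_mul]
  have hex : ∀ x : K, outside S x = Pool.Agent.N63.MT.ex (Pool.Agent.R404.TC.Sp S) x := by
    intro x
    unfold outside Pool.Agent.N63.MT.ex
    rw [hsum]
  have hfib : ∀ u : Fin m → K, Pool.Agent.Run7.h489.GF.Rv R 0 u = fibre R u := by
    intro u
    unfold Pool.Agent.Run7.h489.GF.Rv fibre
    refine Finset.sum_congr rfl fun a _ => ?_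
    rw [sub_zero]
    rfl
  have hspl : ∀ u : Fin m → K, (∀ i, u i ≠ 0) →
      Pool.Agent.Run7.h489.GF.Spl N (Pool.Agent.Run7.h489.GF.Rv R 0 u) := by
    intro u hu
    rw [hfib]
    exact hR.splits u hu
  have hgp : ∀ P : MvPolynomial (Fin n) K, GeneralPosition N P ↔
      Pool.Agent.Run7.h489.GF.VGP N P := fun P => Iff.rfl
  refine ⟨fun δ hδ => ?_, fun x hx => ⟨?_, ?_⟩, fun hS hR0 hvert η B hη => ?_⟩
  · obtain ⟨𝓜, h𝓜⟩ : ∃ 𝓜 : Finset (Fin m → ℤ), 𝓜 =
      R.support.filter fun a => GeneralPosition N (R a) := ⟨_, rfl⟩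
    obtain ⟨Z, C₁, C₂, hC₁, hC₂, hZ, hmain⟩ := Pool.Agent.Run7.h489.GF.gf_all S m hn N R
      hR.homogeneous hspl 𝓜 (by
        intro μ hμ
        rw [h𝓜] at hμ
        exact (Finset.mem_filter.1 hμ).2) hε hδ
    refine ⟨Z, C₁, C₂, hZ, ?_⟩
    intro u x hu hx hv hoff
    obtain ⟨t, ht⟩ : ∃ t : ℝ, t = δ * (∑ i, logHeight₁ (u i) + logHeight x) := ⟨_, rfl⟩
    rw [← ht]
    have hch : ∀ v : Pool.Agent.W180.OP.Pl K, ∃ a : Fin m → ℤ,
        Near R N (Pool.Agent.W180.OP.av v) u t → a ∈ R.support ∧ GeneralPosition N (R a) ∧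
        ∀ b ∈ R.support, b ≠ a → Pool.Agent.W180.OP.av v (monomialAt u b) ≤
          Real.exp (-t) * Pool.Agent.W180.OP.av v (monomialAt u a) := by
      intro v
      by_cases h : Near R N (Pool.Agent.W180.OP.av v) u t
      · obtain ⟨a, ha⟩ := h
        exact ⟨a, fun _ => ha⟩
      · exact ⟨0, fun h' => absurd h' h⟩
    choose a ha using hch
    have hmpos : ∀ (v : Pool.Agent.W180.OP.Pl K) (b : Fin m → ℤ),
        0 < Pool.Agent.W180.OP.av v (monomialAt u b) := fun v b =>
      (Pool.Agent.W180.OP.av v).pos (Finset.prod_ne_zero_iff.2 fun i _ => zpow_ne_zero _ (hu i))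
    have ht0 : 0 ≤ t := by
      have h1 : 0 ≤ ∑ i, logHeight₁ (u i) := Finset.sum_nonneg fun _ _ => zero_le_logHeight₁ _
      have h2 : 0 ≤ logHeight x := logHeight_nonneg _
      rw [ht]
      positivity
    have h1 := hmain u x hx hu (by rw [hfib]; exact hv) (fun P hP => hoff P hP)
      ((Pool.Agent.R404.TC.Sp S).filter fun v => Near R N (Pool.Agent.W180.OP.av v) u t)
      a (Finset.filter_subset _ _) (by
        intro v hv
        obtain ⟨h2, h3, h4⟩ := ha v (Finset.mem_filter.1 hv).2
        refine ⟨?_, ?_⟩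
        · rw [h𝓜]
          exact Finset.mem_filter.2 ⟨h2, h3⟩
        · intro b hb hne
          have h5 := h4 b hb hne
          have h6 := Real.log_le_log (hmpos v b) h5
          rw [Real.log_mul (Real.exp_pos _).ne' (hmpos v _).ne', Real.log_exp, ht] at h6
          have h8 : δ * (∑ i, logHeight₁ (u i) + logHeight x) =
              δ * (Pool.Agent.Run7.h489.TM.hs u + logHeight x) := rfl
          rw [h8] at h6
          show Real.log (Pool.Agent.W180.OP.av v (monomialAt u b)) ≤
            Real.log (Pool.Agent.W180.OP.av v (monomialAt u (a v))) - _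
          linarith)
    have h2 : sumS S (fun v => if Near R N v u t then weil R N v u x else 0) =
        ∑ v ∈ (Pool.Agent.R404.TC.Sp S).filter
            fun v => Near R N (Pool.Agent.W180.OP.av v) u t,
          Pool.Agent.W180.OP.wt v * Pool.Agent.Run7.h489.GF.gterm R N (a v)
            (Pool.Agent.W180.OP.av v) u x := by
      rw [hsum, Finset.sum_filter]
      refine Finset.sum_congr rfl fun v _ => ?_
      by_cases hv : Near R N (Pool.Agent.W180.OP.av v) u t
      · rw [if_pos hv, if_pos hv]
        obtain ⟨h2, -, h4⟩ := ha v hv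
        have h5 : (⨆ b : (R.support : Set (Fin m → ℤ)),
            Pool.Agent.W180.OP.av v (monomialAt u b.1)) =
            Pool.Agent.W180.OP.av v (monomialAt u (a v)) := by
          refine Pool.Agent.Run7.h489.GF.gmx_eq R.support (Pool.Agent.W180.OP.av v) u h2 ?_
          intro b hb
          by_cases hba : b = a v
          · rw [hba]
          · refine (h4 b hb hba).trans ?_
            refine mul_le_of_le_one_left (hmpos v _).le ?_
            exact Real.exp_le_one_iff.2 (by linarith)
        unfold weil Pool.Agent.Run7.h489.GF.gterm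
        rw [h5, hfib]
        rfl
      · rw [if_neg hv, if_neg hv, mul_zero]
    rw [h2]
    simp only [hex]
    refine h1.trans (le_of_eq ?_)
    unfold Pool.Agent.Run7.h489.TM.hs
    ring
  · rw [hex]
    exact (Pool.Agent.N63.MT.ex_facts _ hx).2.2.1
  · rintro w hw rfl
    rw [hex]
    refine Pool.Agent.N63.MT.ex_unit _ hx fun v hv => ?_
    rcases v with v | v
    · exact absurd (Pool.Agent.Run7.h489.LV.mem_Sp_inl v) hv
    · exact ((Pool.Agent.Run7.h489.LV.isU_iff w).2 hw).2 v
        fun h => hv (Pool.Agent.Run7.h489.LV.mem_Sp_inr.2 h)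
  · have hcard : (Pool.Agent.R404.TC.Sp S).card = Fintype.card (InfinitePlace K) + S.card := by
      show (Finset.disjSum _ _).card = _
      rw [Finset.card_disjSum, Finset.card_univ]
    obtain ⟨Z, C, T₀, hZ, h⟩ := Pool.Agent.Run7.h489.GF.gf_most S (by rw [hcard]; exact hS)
      R hn hR.homogeneous hspl hR0 (fun μ hμ hθ => hvert μ ⟨hμ, hθ⟩) hε hη (le_max_right B 0)
    refine ⟨Z, C, max T₀ 0, hZ, fun T hT => ?_⟩
    have hT0 : 0 ≤ T := (le_max_right _ _).trans hT
    let φ : (Fin m → Kˣ) → Fin m → K := fun u i => (u i : K)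
    have hφ : Function.Injective φ := fun u u' h => by
      funext i
      exact Units.ext (congrFun h i)
    have hBx : {u : Fin m → Kˣ | ∀ i, u i ∈ (S : Set (HeightOneSpectrum (𝓞 K))).unit K ∧
        logHeight₁ (u i : K) ≤ T}.ncard = (Pool.Agent.Run7.h489.TM.Bx m S T).card := by
      rw [← Set.ncard_image_of_injective _ hφ, ← Set.ncard_coe_finset]
      congr 1
      ext u
      constructor
      · rintro ⟨u', h2, rfl⟩
        exact Finset.mem_coe.2 (Pool.Agent.Run7.h489.TM.mem_Bx.2 fun i =>
          ⟨(Pool.Agent.Run7.h489.LV.isU_iff (u' i)).2 (h2 i).1, (h2 i).2⟩)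
      · intro h2
        have h3 := Pool.Agent.Run7.h489.TM.mem_Bx.1 (Finset.mem_coe.1 h2)
        refine ⟨fun i => Units.mk0 (u i) (h3 i).1.1, fun i => ⟨?_, (h3 i).2⟩, rfl⟩
        exact (Pool.Agent.Run7.h489.LV.isU_iff _).1 (h3 i).1
    rw [hBx, Pool.Agent.Run7.h489.TM.card_Bx]
    push_cast
    refine le_trans ?_ (h T ((le_max_left _ _).trans hT))
    rw [Nat.cast_le, ← Set.ncard_coe_finset]
    refine Set.ncard_le_ncard_of_injOn φ ?_ hφ.injOn (Finset.finite_toSet _)
    rintro u ⟨hu, x, hx, hv, hxB, hoff, hlt⟩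
    refine Finset.mem_coe.2 (Finset.mem_filter.2 ⟨Pool.Agent.Run7.h489.TM.mem_Bx.2 fun i =>
      ⟨(Pool.Agent.Run7.h489.LV.isU_iff (u i)).2 (hu i).1, (hu i).2⟩, x, hx, ?_, ?_, ?_, ?_⟩)
    · rw [hfib]
      exact hv
    · exact hxB.trans (mul_le_mul_of_nonneg_right (le_max_left _ _) hT0)
    · exact fun P hP => hoff P hP
    · refine lt_of_le_of_lt (le_of_eq ?_) (lt_of_lt_of_le hlt (le_of_eq ?_))
      · show _ = n * logHeight x + ε * (logHeight x +
          Pool.Agent.Run7.h489.TM.hs fun i => (u i : K)) + C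
        ring
      · rw [hsum]
        refine Finset.sum_congr rfl fun v _ => ?_
        unfold weil Pool.Agent.Run7.h489.GF.gfull
        rw [hfib]
        rfl

end Pool.Agent.Results.MP_17a322_nt.HyperplaneFibrations
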