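import Mathlib
import Pool.Agent.Run7.h489.VJ.Most

set_option autoImplicit false

/-!
# Vojta's inequality for hyperplanes with a common point and a hypersurface of arbitrary degree

Let `K` be a number field, `S` a finite set of places containing the archimedean ones, and let
`x_0, ..., x_m, y` be the coordinates of `P^(m+1)`. The divisor `D` consists of the hyperplanes
`H_i : x_i = 0`, `i = 0, ..., m`, which have the common point `Q = (0 : ... : 0 : 1)`, and of a
hypersurface `F` of degree `n ≥ 1`, which may be irreducible: the closure of the zero set of a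
polynomial `f` in the affine coordinates `u_i = x_i / x_0`, `s = y / x_0`. Assume that `F` meets each
of the lines `L_i` through `Q` and the `i`-th coordinate point transversally and not in `Q`, which
holds if `D` has normal crossings.

Vojta's conjecture for `D` is `m_(S, D)(P) ≤ (m + 2 + ε) h(P) + O(1)` outside of a proper closed
subset. We prove it with the proximity function of all hyperplanes, where the local height of `F` at
a place `v` is taken into account if the projection of `P` from `Q` is `v`-adically close to a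
coordinate point, up to a multiple of the contributions of the places outside of `S` to the heights of
the `u_i`, which vanish if the `u_i` are `S`-units. This implies the full inequality for `100%` of the
tuples of `S`-units `u`.
-/

namespace Pool.Agent.Results.MP_17a322_nt.HyperplanesAndHypersurface

open Polynomial NumberField IsDedekindDomain Height

section defs

variable {K : Type} [Field K] {m : ℕ}

/-- The coordinates `(1 : u_1 : ... : u_m : s)` of the point `P`. -/
def point (u : Fin m → K) (s : K) : Fin (m + 2) → K := Fin.cons 1 (Fin.snoc u s)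

/-- The coordinates `x_0 = 1` (with the index `none`) and `x_i = u_i` (with the index `some i`). -/
def coord (u : Fin m → K) (i : Option (Fin m)) : K := Option.elim i 1 u

/-- The value `f(u, s)`. The variable of `f` with the index `none` is `s`. -/
noncomputable def value (f : MvPolynomial (Option (Fin m)) K) (u : Fin m → K) (s : K) : K :=
  MvPolynomial.eval (fun o => Option.elim o s u) f

/-- The polynomial `f*(0, ..., 1, ..., 0, Y)`, with `x_i = 1`, where `f*` is the homogenisation of
degree `n` of `f`: the restriction of `f*` to the line `L_i`. -/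
noncomputable def restriction (f : MvPolynomial (Option (Fin m)) K) (n : ℕ) :
    Option (Fin m) → K[X]
  | none => ∑ j ∈ Finset.range (n + 1), monomial j (f.coeff (Finsupp.single none j))
  | some i => ∑ j ∈ Finset.range (n + 1),
      monomial j (f.coeff (Finsupp.single none j + Finsupp.single (some i) (n - j)))

/-- `f` has total degree at most `n`, and the hypersurface `f* = 0` meets each line `L_i` in `n`
distinct points different from `Q = (0 : ... : 0 : 1)`. -/
structure Transversal (f : MvPolynomial (Option (Fin m)) K) (n : ℕ) : Prop where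
  degree : f.totalDegree ≤ n
  natDegree : ∀ i, (restriction f n i).natDegree = n
  separable : ∀ i, (restriction f n i).Separable

/-- The local height of the hyperplanes, `log (max |x_j|, |y|) ^ (m + 1) / |x_0 ... x_m|`. -/
noncomputable def localHyperplanes (v : AbsoluteValue K ℝ) (u : Fin m → K) (s : K) : ℝ :=
  (m + 1) * Real.log (⨆ j, v (point u s j)) - ∑ i, Real.log (v (u i))

/-- The local height of the hypersurface, `log (max |x_j|, |y|) ^ n / |f*(x, y)|`. -/
noncomputable def localHypersurface (v : AbsoluteValue K ℝ)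
    (f : MvPolynomial (Option (Fin m)) K) (n : ℕ) (u : Fin m → K) (s : K) : ℝ :=
  n * Real.log (⨆ j, v (point u s j)) - Real.log (v (value f u s))

/-- For some `i` all the `x_j`, `j ≠ i`, satisfy `|x_j|_v ≤ e^(-t) |x_i|_v`: the projection of `P`
from `Q` is close to the `i`-th coordinate point. -/
def Near (v : AbsoluteValue K ℝ) (u : Fin m → K) (t : ℝ) : Prop :=
  ∃ i, ∀ j ≠ i, v (coord u j) ≤ Real.exp (-t) * v (coord u i)

end defs

section arith

variable {K : Type} [Field K] [NumberField K] {m : ℕ}

/-- The sum of a function over the places in `S`: the archimedean places, with their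
multiplicities, and the given primes. -/
noncomputable def sumS (S : Finset (HeightOneSpectrum (𝓞 K))) (g : AbsoluteValue K ℝ → ℝ) : ℝ :=
  ∑ v : InfinitePlace K, v.mult * g v.1 + ∑ v ∈ S, g (FinitePlace.mk v).1

/-- The contribution of the places outside of `S` to `2 h(x) = ∑ |log |x|_v|`. -/
noncomputable def outside (S : Finset (HeightOneSpectrum (𝓞 K))) (x : K) : ℝ :=
  2 * logHeight₁ x - sumS S fun v => |Real.log (v x)|

end arith

open Classical in
/-- (Heights are relative to `K`, not divided by the degree.) Let `f` be transversal of degree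
`n ≥ 1` and `ε > 0`.
(1) For every `δ > 0` there are finitely many hypersurfaces `a(u) + b(u) s = 0` such that all points
`P = (1 : u : s)` outside of them with `u_1 ⋯ u_m f(u, s) ≠ 0` satisfy
`m_(S, H_0 + ... + H_m)(P) + ∑_v λ_(F, v)(P) ≤ (m + 2 + ε) h(P) + C₁ ∑_i outside(u_i) + C₂`, where
`v` runs over the places of `S` where the projection of `P` from `Q` is within `e^(-δ h(P))` of a
coordinate point.
(2) The term `outside(x)` is nonnegative, and it vanishes for `S`-units.
(3) Let `#S ≥ 2`. For every `η > 0` and `B` there are finitely many hypersurfaces `a(u) + b(u) s = 0`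
and a constant `C` such that for all large `T` the following holds for all but at most `η N(T)` of
the `N(T)` tuples `u ∈ (O_S^*)^m` with all `h(u_i) ≤ T`: all `P = (1 : u : s)` outside of the
hypersurfaces with `s ∈ K`, `f(u, s) ≠ 0` and `h(s) ≤ B T` satisfy Vojta's inequality
`m_(S, D)(P) ≤ (m + 2 + ε) h(P) + C`. -/
theorem result (K : Type) [Field K] [NumberField K] (S : Finset (HeightOneSpectrum (𝓞 K)))
    (m n : ℕ) (hn : 1 ≤ n) (f : MvPolynomial (Option (Fin m)) K) (hf : Transversal f n)
    (ε : ℝ) (hε : 0 < ε) :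
    (∀ δ : ℝ, 0 < δ →
      ∃ (Z : Finset (MvPolynomial (Fin m) K × MvPolynomial (Fin m) K)) (C₁ C₂ : ℝ),
        (∀ p ∈ Z, p ≠ 0) ∧ ∀ (u : Fin m → K) (s : K), (∀ i, u i ≠ 0) → value f u s ≠ 0 →
          (∀ p ∈ Z, MvPolynomial.eval u p.1 + MvPolynomial.eval u p.2 * s ≠ 0) →
          sumS S (fun v => localHyperplanes v u s +
            if Near v u (δ * logHeight (point u s)) then localHypersurface v f n u s else 0) ≤
              (m + 2 + ε) * logHeight (point u s) + C₁ * ∑ i, outside S (u i) + C₂) ∧
    (∀ x : K, x ≠ 0 → 0 ≤ outside S x ∧ ∀ w ∈ (S : Set (HeightOneSpectrum (𝓞 K))).unit K,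
      x = w → outside S x = 0) ∧
    (2 ≤ Fintype.card (InfinitePlace K) + S.card → ∀ η B : ℝ, 0 < η →
      ∃ (Z : Finset (MvPolynomial (Fin m) K × MvPolynomial (Fin m) K)) (C T₀ : ℝ),
        (∀ p ∈ Z, p ≠ 0) ∧ ∀ T : ℝ, T₀ ≤ T →
          (({u : Fin m → Kˣ | (∀ i, u i ∈ (S : Set (HeightOneSpectrum (𝓞 K))).unit K ∧
              logHeight₁ (u i : K) ≤ T) ∧
            ∃ s : K, value f (fun i => (u i : K)) s ≠ 0 ∧ logHeight₁ s ≤ B * T ∧
              (∀ p ∈ Z, MvPolynomial.eval (fun i => (u i : K)) p.1 +
                MvPolynomial.eval (fun i => (u i : K)) p.2 * s ≠ 0) ∧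
              (m + 2 + ε) * logHeight (point (fun i => (u i : K)) s) + C <
                sumS S fun v => localHyperplanes v (fun i => (u i : K)) s +
                  localHypersurface v f n (fun i => (u i : K)) s}.ncard : ℕ) : ℝ) ≤
            η * (({u : Fin m → Kˣ | ∀ i, u i ∈ (S : Set (HeightOneSpectrum (𝓞 K))).unit K ∧
              logHeight₁ (u i : K) ≤ T}.ncard : ℕ) : ℝ)) := by
  have hlin : ∀ o, (Pool.Agent.Run7.h489.VJ.lin f n o).natDegree = n ∧
      (Pool.Agent.Run7.h489.VJ.lin f n o).Separable := by
    rintro (_ | i)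
    · exact ⟨hf.natDegree none, hf.separable none⟩
    · exact ⟨hf.natDegree (some i), hf.separable (some i)⟩
  have hval : ∀ (u : Fin m → K) (s : K),
      Pool.Agent.Run7.h489.TM.val (Pool.Agent.Run7.h489.TM.toF f) u s = value f u s :=
    fun u s => Pool.Agent.Run7.h489.TM.val_toF f u s
  have hsum : ∀ g : AbsoluteValue K ℝ → ℝ, sumS S g =
      ∑ v ∈ Pool.Agent.R404.TC.Sp S, Pool.Agent.W180.OP.wt v * g (Pool.Agent.W180.OP.av v) := by
    intro g
    unfold sumS Pool.Agent.R404.TC.Sp
    rw [Finset.sum_disjSum]
    congr 1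
    refine Finset.sum_congr rfl fun v _ => ?_
    show _ = (1 : ℝ) * g (FinitePlace.mk v).1
    rw [one_mul]
  have hex : ∀ x : K, outside S x = Pool.Agent.N63.MT.ex (Pool.Agent.R404.TC.Sp S) x := by
    intro x
    unfold outside Pool.Agent.N63.MT.ex
    rw [hsum]
  have hlv : ∀ (P : Fin 2 → MvPolynomial (Fin m) K) (u : Fin m → K) (s : K),
      Pool.Agent.N63.MT.lv P u ![1, s] =
        MvPolynomial.eval u (P 0) + MvPolynomial.eval u (P 1) * s := by
    intro P u s
    unfold Pool.Agent.N63.MT.lv
    rw [Fin.sum_univ_two]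
    show _ * 1 + _ * s = _
    rw [mul_one]
  have hne : ∀ P : Fin 2 → MvPolynomial (Fin m) K, P ≠ 0 → (P 0, P 1) ≠ 0 := by
    intro P hP h0
    apply hP
    funext i
    fin_cases i
    · exact congrArg Prod.fst h0
    · exact congrArg Prod.snd h0
  have hloc : ∀ (v : AbsoluteValue K ℝ) (u : Fin m → K) (s : K), localHyperplanes v u s =
      Real.log (Pool.Agent.W180.OP.nrm v (Pool.Agent.Run7.h489.VJ.pt u s)) +
      ∑ i, (Real.log (Pool.Agent.W180.OP.nrm v (Pool.Agent.Run7.h489.VJ.pt u s)) -
        Real.log (v (u i))) := by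
    intro v u s
    rw [Finset.sum_sub_distrib, Finset.sum_const, Finset.card_univ, Fintype.card_fin,
      nsmul_eq_mul]
    show (m + 1) * Real.log (Pool.Agent.W180.OP.nrm v (Pool.Agent.Run7.h489.VJ.pt u s)) - _ = _
    ring
  refine ⟨fun δ hδ => ?_, fun x hx => ⟨?_, ?_⟩, fun hS η B hη => ?_⟩
  · obtain ⟨Z, C₁, C₂, -, -, hZ, hmain⟩ :=
      Pool.Agent.Run7.h489.VJ.vj_base (S := S) f hn hf.degree hlin hε hδ
    refine ⟨Z.image fun P => (P 0, P 1), C₁, C₂, ?_, fun u s hu hv hoff => ?_⟩
    · intro p hp
      obtain ⟨P, hP, rfl⟩ := Finset.mem_image.1 hp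
      exact hne P (hZ P hP)
    · have h1 := hmain u s hu (by rw [hval]; exact hv) (by
        intro P hP
        rw [hlv]
        exact hoff _ (Finset.mem_image_of_mem _ hP))
      simp only [hex]
      refine le_trans (le_of_eq ?_) h1
      rw [hsum]
      unfold Pool.Agent.Run7.h489.VJ.prox
      refine Finset.sum_congr rfl fun v _ => ?_
      rw [hloc, hval]
      rfl
  · rw [hex]
    exact (Pool.Agent.N63.MT.ex_facts _ hx).2.2.1
  · rintro w hw rfl
    rw [hex]
    refine Pool.Agent.N63.MT.ex_unit _ hx fun v hv => ?_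
    rcases v with v | v
    · exact absurd (Pool.Agent.Run7.h489.LV.mem_Sp_inl v) hv
    · exact ((Pool.Agent.Run7.h489.LV.isU_iff w).2 hw).2 v
        fun h => hv (Pool.Agent.Run7.h489.LV.mem_Sp_inr.2 h)
  · have hcard : (Pool.Agent.R404.TC.Sp S).card = Fintype.card (InfinitePlace K) + S.card := by
      show (Finset.disjSum _ _).card = _
      rw [Finset.card_disjSum, Finset.card_univ]
    obtain ⟨Z, C, T₀, hZ, h⟩ := Pool.Agent.Run7.h489.VJ.vj_most S (by rw [hcard]; exact hS) f hn
      hf.degree hlin hε hη (le_max_right B 0)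
    refine ⟨Z.image fun P => (P 0, P 1), C, max T₀ 0, ?_, fun T hT => ?_⟩
    · intro p hp
      obtain ⟨P, hP, rfl⟩ := Finset.mem_image.1 hp
      exact hne P (hZ P hP)
    have hT0 : 0 ≤ T := (le_max_right _ _).trans hT
    let φ : (Fin m → Kˣ) → Fin m → K := fun u i => (u i : K)
    have hφ : Function.Injective φ := fun u u' h => by
      funext i
      exact Units.ext (congrFun h i)
    have hBx : {u : Fin m → Kˣ | ∀ i, u i ∈ (S : Set (HeightOneSpectrum (𝓞 K))).unit K ∧
        logHeight₁ (u i : K) ≤ T}.ncard = (Pool.Agent.Run7.h489.TM.Bx m S T).card := by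
      rw [← Set.ncard_image_of_injective _ hφ, ← Set.ncard_coe_finset]
      congr 1
      ext u
      constructor
      · rintro ⟨u', h2, rfl⟩
        exact Finset.mem_coe.2 (Pool.Agent.Run7.h489.TM.mem_Bx.2 fun i =>
          ⟨(Pool.Agent.Run7.h489.LV.isU_iff (u' i)).2 (h2 i).1, (h2 i).2⟩)
      · intro h2
        have h3 := Pool.Agent.Run7.h489.TM.mem_Bx.1 (Finset.mem_coe.1 h2)
        refine ⟨fun i => Units.mk0 (u i) (h3 i).1.1, fun i => ⟨?_, (h3 i).2⟩, rfl⟩
        exact (Pool.Agent.Run7.h489.LV.isU_iff _).1 (h3 i).1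
    rw [hBx, Pool.Agent.Run7.h489.TM.card_Bx]
    push_cast
    refine le_trans ?_ (h T ((le_max_left _ _).trans hT))
    rw [Nat.cast_le, ← Set.ncard_coe_finset]
    refine Set.ncard_le_ncard_of_injOn φ ?_ hφ.injOn (Finset.finite_toSet _)
    rintro u ⟨hu, s, hs1, hs2, hs3, hs4⟩
    refine Finset.mem_coe.2 (Finset.mem_filter.2 ⟨Pool.Agent.Run7.h489.TM.mem_Bx.2 fun i =>
      ⟨(Pool.Agent.Run7.h489.LV.isU_iff (u i)).2 (hu i).1, (hu i).2⟩, s, ?_, ?_, ?_, ?_⟩)
    · rw [hval]
      exact hs1
    · exact hs2.trans (mul_le_mul_of_nonneg_right (le_max_left _ _) hT0)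
    · intro P hP
      rw [hlv]
      exact hs3 _ (Finset.mem_image_of_mem _ hP)
    · refine lt_of_lt_of_le hs4 (le_of_eq ?_)
      rw [hsum]
      unfold Pool.Agent.Run7.h489.VJ.fprox
      refine Finset.sum_congr rfl fun v _ => ?_
      rw [hloc, hval]
      rfl

end Pool.Agent.Results.MP_17a322_nt.HyperplanesAndHypersurface
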