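import Mathlib
import Pool.Agent.Run7.h28.BV.UInt
import Pool.Agent.Run7.h28.BV.UNear

/-!
# Integral points above sparse points of affine space: one exceptional set for all fields

Vojta's conjecture, with `D` the boundary of an affine variety `V = X \ D` of log general type, says
that the `S`-integral points of `V` are not Zariski dense, with an exceptional set which is
independent of the number field and of `S` in its strong form.  We prove this for the integral points
`P` whose image `x (P)` under a system of `n` regular functions is a sparse point of affine space, near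
a point or a direction at infinity over which the other coordinates are unramified, at one place `v`.
The functions `x` need not define a finite map; the other coordinates of `P` are arbitrary; `V` is any
affine variety which is not dominated by images of the multiplicative group, for example of log general
type.  The exceptional set is one proper closed subset for all number fields `K`, all finite sets `S`
of places, all finitely generated groups `Γ` of units and all places `v`, and the result holds
in families.
-/

open Height NumberField IsDedekindDomain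

namespace Pool.Agent.Results.MP_17a322_nt.IntegralPointsOneSet

/-- The places of a number field, infinite or finite. -/
abbrev Place (K : Type) [Field K] [NumberField K] : Type :=
  InfinitePlace K ⊕ HeightOneSpectrum (𝓞 K)

/-- The absolute value of a place, as normalised in Mathlib. -/
noncomputable def absv {K : Type} [Field K] [NumberField K] : Place K → AbsoluteValue K ℝ
  | Sum.inl w => w.1
  | Sum.inr v => (FinitePlace.mk v).1

/-- The polynomial `F (x, y_i)` in the coordinates `x_l` and `y_i`. -/
noncomputable def eqn {A : Type} [CommRing A] {n m : ℕ} (F : Polynomial (MvPolynomial (Fin n) A))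
    (i : Fin m) : MvPolynomial (Fin n ⊕ Fin m) A :=
  F.eval₂ (MvPolynomial.rename Sum.inl :
    MvPolynomial (Fin n) A →ₐ[A] MvPolynomial (Fin n ⊕ Fin m) A).toRingHom
    (MvPolynomial.X (Sum.inr i))

/-- The polynomial `F (x, Y)` over `K`; the coefficients in `A` are specialised by `s : A → K`. -/
noncomputable def specialise {A K : Type} [CommRing A] [Field K] {n : ℕ} (s : A →+* K)
    (x : Fin n → K) (F : Polynomial (MvPolynomial (Fin n) A)) : Polynomial K :=
  F.map (MvPolynomial.eval₂Hom s x)

/-- The affine variety over `Spec A` with the ideal `I` is dominated by images of the multiplicative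
group: over a field `L` which is an `A`-algebra there is a nonconstant morphism `p` from the
multiplicative group to the variety, given by Laurent polynomials, such that the point `p (1)` is
generic: all polynomials over `A` which vanish at it lie in `I`. -/
def DominatedByGm {A σ : Type} [CommRing A] (I : Ideal (MvPolynomial σ A)) : Prop :=
  ∃ (L : Type) (_ : Field L) (_ : Algebra A L) (p : σ → LaurentPolynomial L),
    (∀ F ∈ I, MvPolynomial.aeval p F = 0) ∧
    (∀ G : MvPolynomial σ A, G ∉ I →
      MvPolynomial.aeval (fun i => LaurentPolynomial.eval₂ (RingHom.id L) 1 (p i)) G ≠ 0) ∧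
    ∃ i, ¬ ∃ a, p i = LaurentPolynomial.C a

section

variable {K : Type} [Field K] [NumberField K]

/-- `x` is a sum of `k` elements of `Γ` with coefficients in `K` of height at most `M`. -/
def IsSparse (Γ : Subgroup Kˣ) (k : ℕ) (M : ℝ) (x : K) : Prop :=
  ∃ (a : Fin k → K) (u : Fin k → Kˣ), (∀ r, mulHeight₁ (a r) ≤ M) ∧ (∀ r, u r ∈ Γ) ∧
    x = ∑ r, a r * (u r : K)

/-- After scaling, the polynomial `F` is `v`-adically close to a separable and split polynomial `E`
of degree `q` with coefficients of height at most `M`: there are `a, z ∈ Γ` of height at most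
`M h ^ B` such that the coefficients of `a F (z Y) - E (Y)` of index at most `q` are at most
`M h ^ (-δ)` at `v`.  See `near_of_close` and `near_of_direction` for the main examples. -/
def IsNearSplit (Γ : Subgroup Kˣ) (v : Place K) (B δ M h : ℝ) (q : ℕ) (F : Polynomial K) : Prop :=
  ∃ (a z : Kˣ) (E : Polynomial K), a ∈ Γ ∧ z ∈ Γ ∧ E.natDegree = q ∧ E.Separable ∧ E.Splits ∧
    (∀ j, mulHeight₁ (E.coeff j) ≤ M) ∧ mulHeight₁ (a : K) ≤ M * h ^ B ∧
    mulHeight₁ (z : K) ≤ M * h ^ B ∧
    ∀ j ≤ q, absv v ((a : K) * (z : K) ^ j * F.coeff j - E.coeff j) ≤ M * h ^ (-δ)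

end

lemma absv_eq {K : Type} [Field K] [NumberField K] (v : Place K) :
    absv v = Pool.Agent.W180.OP.av v := by
  cases v with
  | inl w => rfl
  | inr w => rfl

lemma near_iff {K : Type} [Field K] [NumberField K] (Γ : Subgroup Kˣ) (v : Place K)
    (B δ M h : ℝ) (q : ℕ) (F : Polynomial K) :
    IsNearSplit Γ v B δ M h q F ↔ Pool.Agent.Run7.h28.BV.Near Γ v B δ M h q F := by
  unfold IsNearSplit Pool.Agent.Run7.h28.BV.Near
  rw [absv_eq]

/-- First example: the point `x` is `v`-adically close to a point `c` with coordinates of height at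
most `M` at which `F (c, Y)` has full degree and is separable and split over `K`. -/
theorem near_of_close {A : Type} [CommRing A] {n : ℕ} (F : Polynomial (MvPolynomial (Fin n) A))
    (K : Type) [Field K] [NumberField K] : ∃ C : ℝ, 1 ≤ C ∧
      ∀ (Γ : Subgroup Kˣ) (v : Place K) (B δ M h : ℝ) (s : A →+* K) (x c : Fin n → K), 0 ≤ B →
        0 ≤ δ → 1 ≤ M → 1 ≤ h → (∀ j e, mulHeight₁ (s ((F.coeff j).coeff e)) ≤ M) →
        (∀ l, mulHeight₁ (c l) ≤ M) → (∀ l, absv v (x l - c l) ≤ M * h ^ (-δ)) →
        (specialise s c F).natDegree = F.natDegree → (specialise s c F).Separable →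
        (specialise s c F).Splits →
        IsNearSplit Γ v B δ ((C * M) ^ C) h F.natDegree (specialise s x F) := by
  obtain ⟨C, hC, h⟩ := Pool.Agent.Run7.h28.BV.near_of_close F K
  refine ⟨C, hC, fun Γ v B δ M h' s x c h1 h2 h3 h4 h5 h6 h7 h8 h9 h10 => ?_⟩
  rw [near_iff]
  rw [absv_eq] at h7
  exact h Γ v B δ M h' s x c h1 h2 h3 h4 h5 h6 h7 h8 h9 h10

/-- The part of `F` of weight `q D + p q` at the point `(c, Y)`, where the variables `x_l` have weight
`q` and `Y` has weight `p`. -/
noncomputable def topPart {A K : Type} [CommRing A] [Field K] {n : ℕ} (p q D : ℕ) (s : A →+* K)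
    (F : Polynomial (MvPolynomial (Fin n) A)) (c : Fin n → K) : Polynomial K :=
  ∑ j ∈ Finset.range (q + 1),
    Polynomial.C (∑ e ∈ (F.coeff j).support with q * ∑ l, e l = q * D + p * (q - j),
      s ((F.coeff j).coeff e) * ∏ l, c l ^ e l) * Polynomial.X ^ j

/-- Second example: the point `x` is `v`-adically close to the direction `c` at infinity, that is,
`x` is close to `c w ^ q` for a `v`-adically large element `w` of `Γ`, all terms of `F` have weight at
most `q D + p q`, and the part of this weight at `(c, Y)` has degree `q` and is separable and split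
over `K`. -/
theorem near_of_direction {A : Type} [CommRing A] {n : ℕ}
    (F : Polynomial (MvPolynomial (Fin n) A)) (q p D : ℕ) (hq : 0 < q)
    (hw : ∀ j ≤ q, ∀ e, (F.coeff j).coeff e ≠ 0 → q * ∑ l, e l ≤ q * D + p * (q - j))
    (K : Type) [Field K] [NumberField K] : ∃ C : ℝ, 1 ≤ C ∧
      ∀ (Γ : Subgroup Kˣ) (v : Place K) (B δ M h : ℝ) (s : A →+* K) (x c : Fin n → K) (w : Kˣ),
        0 ≤ B → 0 ≤ δ → 1 ≤ M → 1 ≤ h → (∀ j e, mulHeight₁ (s ((F.coeff j).coeff e)) ≤ M) →
        (∀ l, mulHeight₁ (c l) ≤ M) → w ∈ Γ → mulHeight₁ (w : K) ≤ M * h ^ B →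
        absv v ((w : K)⁻¹) ≤ M * h ^ (-δ) →
        (∀ l, absv v (x l / (w : K) ^ q - c l) ≤ M * h ^ (-δ)) →
        (topPart p q D s F c).natDegree = q → (topPart p q D s F c).Separable →
        (topPart p q D s F c).Splits →
        IsNearSplit Γ v (B * (q * D + p * q)) δ ((C * M) ^ C) h q (specialise s x F) := by
  obtain ⟨C, hC, h⟩ := Pool.Agent.Run7.h28.BV.near_of_direction F q p D hq hw K
  refine ⟨C, hC, fun Γ v B δ M h' s x c w h1 h2 h3 h4 h5 h6 h7 h8 h9 h10 h11 h12 h13 => ?_⟩
  rw [near_iff]
  rw [absv_eq] at h9 h10
  exact h Γ v B δ M h' s x c w h1 h2 h3 h4 h5 h6 h7 h8 h9 h10 h11 h12 h13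

/-- Let `A` be a commutative ring, `n, m, k` natural numbers, `B` and `δ > 0` real numbers.

Let `V` be an affine variety over `A` with the coordinates `x_1, …, x_n`, `y_1, …, y_m`, given by
equations `G` which generate a prime ideal `I`, which is not dominated by images of the multiplicative
group, and on which each `y_i` satisfies an equation `F_i (x, y_i) = 0` of positive degree in `y_i`,
not necessarily monic.  Then there is ONE polynomial `f` over `A`, not in `I`, with the following
property.

For every number field `K`, every finitely generated subgroup `Γ` of `Kˣ`, every place `v` of `K` and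
every finite set `S` of finite places of `K` there is a constant `C` such that for all `M ≥ 1`, all
homomorphisms `s : A → K` for which the coefficients of the `G_j` and the `F_i` have height at most
`M`, and all points `(x, y)` of `V_s (K)` for which
* each `x_l` is a sum of `k` elements of `Γ` with coefficients of height at most `M`,
* each `y_i` is `S`-integral up to a denominator `b_i` of height at most `M`,
* the polynomials `F_i (x, Y)` are, after scaling, `v`-adically at distance at most `M H ^ (-δ)`
  from separable split polynomials with coefficients of height at most `M`, where `H` is the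
  product of the heights of the `x_l`,
one has `f (x, y) = 0` or `H (x_l) ≤ (C M) ^ C` for all `l`. -/
theorem result {A : Type} [CommRing A] (n m g k : ℕ) (B δ : ℝ) (hδ : 0 < δ)
    (G : Fin g → MvPolynomial (Fin n ⊕ Fin m) A)
    (hprime : (Ideal.span (Set.range G)).IsPrime)
    (hnu : ¬ DominatedByGm (Ideal.span (Set.range G)))
    (F : Fin m → Polynomial (MvPolynomial (Fin n) A)) (hq : ∀ i, 0 < (F i).natDegree)
    (hFG : ∀ i, eqn (F i) i ∈ Ideal.span (Set.range G)) :
    ∃ f : MvPolynomial (Fin n ⊕ Fin m) A, f ∉ Ideal.span (Set.range G) ∧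
      ∀ (K : Type) [Field K] [NumberField K] (Γ : Subgroup Kˣ), Γ.FG → ∀ v : Place K,
      ∀ S : Finset (HeightOneSpectrum (𝓞 K)),
      ∃ C : ℝ, 0 < C ∧ ∀ (M : ℝ) (s : A →+* K) (x : Fin n → K) (y b : Fin m → K), 1 ≤ M →
        (∀ j e, mulHeight₁ (s ((G j).coeff e)) ≤ M) →
        (∀ i j e, mulHeight₁ (s (((F i).coeff j).coeff e)) ≤ M) →
        (∀ j, MvPolynomial.eval₂ s (Sum.elim x y) (G j) = 0) →
        (∀ l, IsSparse Γ k M (x l)) →
        (∀ i, b i ≠ 0 ∧ mulHeight₁ (b i) ≤ M ∧
          ∀ w, w ∉ S → absv (Sum.inr w : Place K) (b i * y i) ≤ 1) →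
        (∀ i, IsNearSplit Γ v B δ M (∏ l, mulHeight₁ (x l)) (F i).natDegree
          (specialise s x (F i))) →
        MvPolynomial.eval₂ s (Sum.elim x y) f = 0 ∨ ∀ l, mulHeight₁ (x l) ≤ (C * M) ^ C := by
  obtain ⟨f, hf2, h⟩ := Pool.Agent.Run7.h28.BV.strongT n m g k B δ hδ G hprime hnu F hq hFG
  refine ⟨f, hf2, fun K _ _ Γ hΓ v S => ?_⟩
  obtain ⟨C, hC, h⟩ := h K Γ hΓ v S
  exact ⟨C, hC, fun M s x y b h1 h2 h3 h4 h5 h6 h7 =>
    h M s x y b h1 h2 h3 h4 h5 h6 fun i => (near_iff _ _ _ _ _ _ _ _).1 (h7 i)⟩

end Pool.Agent.Results.MP_17a322_nt.IntegralPointsOneSet
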