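import Pool.Agent.Run7.h684.Fn

set_option autoImplicit false

/-!
# Vojta's inequality near transversal crossings of hypersurfaces in projective space

`D_i = {F i = 0}`, `i < q`, are hypersurfaces of degrees `d i` in `ℙ^r` over a number field `k`, no
`r + 1` of them have a common geometric point, and any `r` of them meet transversally.
-/

namespace Pool.Agent.Results.MP_17a322_nt.TransversalCrossings

open NumberField IsDedekindDomain

/-- The places of a number field: the archimedean places and the primes. -/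
abbrev Place (k : Type) [Field k] [NumberField k] : Type :=
  InfinitePlace k ⊕ HeightOneSpectrum (𝓞 k)

/-- The local height `d_v λ_{D,v}` of the hypersurface `F = 0` of degree `d` at the point with
homogeneous coordinates `x`, where `d_v = [k_v : ℚ_v] / [k : ℚ]`. (The absolute value of a prime `p`
is the normalised one, with the value `(N p) ^ (-ord_p x)` at `x ≠ 0`.) -/
noncomputable def localHeight {k : Type} [Field k] [NumberField k] {n : ℕ} (v : Place k) (d : ℕ)
    (F : MvPolynomial (Fin n) k) (x : Fin n → k) : ℝ :=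
  match v with
  | Sum.inl w => w.mult * Real.log ((⨆ j, w (x j)) ^ d / w (MvPolynomial.eval x F)) /
      Module.finrank ℚ k
  | Sum.inr p => Real.log ((⨆ j, FinitePlace.mk p (x j)) ^ d /
      FinitePlace.mk p (MvPolynomial.eval x F)) / Module.finrank ℚ k

/-- The absolute logarithmic height. -/
noncomputable def height {k : Type} [Field k] [NumberField k] {n : ℕ} (x : Fin n → k) : ℝ :=
  Height.logHeight x / Module.finrank ℚ k

/-- Let `F 0, …, F (q-1)` be forms of positive degrees `d i` in `r + 1` variables over a number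
field `k`, `0 < r < q`, such that no `r + 1` of them have a nontrivial common zero over the algebraic
closure and the gradients of any `r` of them are linearly independent at each of their nontrivial
common zeros. For all finite sets `S` of places and all `ε > 0` there are a finite set `Z` of nonzero
forms and a constant `C` with the following property. Let `x` be a point over `k` off the
`D_i = {F i = 0}` and off the zeros of the forms in `Z`, for `v ∈ S` let `σ v` enumerate `r` indices
with the `r` largest local heights `λ_{i,v}(x)`, and let `y v j, z v j ≥ 0` be numbers with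
`y v j + z v j ≤ λ_{σ v j, v}(x)` and `z v i ≤ 2 z v j`. Then
`∑_{v ∈ S} ∑_i λ_{i,v}(x) ≤ (r + 1 + ε) h(x) + C + ∑_{v ∈ S} δ_v`, where
`δ_v = ∑_j (1 - 1 / d (σ v j)) (λ_{σ v j, v}(x) - z v j) + ∑_j y v j / d (σ v j) -`
`r (∏_j y v j)^(1/r)`.

For `y = 0` and `z v j = λ_{σ v j, v}(x)`, which is allowed if for each `v ∈ S` the `r` largest local
heights are within a factor `2` of each other, `δ_v = 0` and this is Vojta's inequality. -/
theorem result (k : Type) [Field k] [NumberField k] (q r : ℕ) (hr0 : 0 < r) (hr : r < q)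
    (F : Fin q → MvPolynomial (Fin (r + 1)) k) (d : Fin q → ℕ)
    (hF : ∀ i, (F i).IsHomogeneous (d i)) (hd : ∀ i, 0 < d i)
    (hno : ∀ T : Finset (Fin q), T.card = r + 1 → ∀ x : Fin (r + 1) → AlgebraicClosure k,
      (∀ i ∈ T, MvPolynomial.aeval x (F i) = 0) → x = 0)
    (htr : ∀ σ : Fin r → Fin q, Function.Injective σ → ∀ x : Fin (r + 1) → AlgebraicClosure k,
      x ≠ 0 → (∀ j, MvPolynomial.aeval x (F (σ j)) = 0) →
        LinearIndependent (AlgebraicClosure k) fun (j : Fin r) (a : Fin (r + 1)) =>
          MvPolynomial.aeval x (MvPolynomial.pderiv a (F (σ j))))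
    (S : Finset (Place k)) (ε : ℝ) (hε : 0 < ε) :
    ∃ (t : ℕ) (Z : Finset (MvPolynomial (Fin (r + 1)) k)) (C : ℝ),
      (∀ Φ ∈ Z, Φ.IsHomogeneous t ∧ Φ ≠ 0) ∧
      ∀ x : Fin (r + 1) → k, x ≠ 0 → (∀ i, MvPolynomial.eval x (F i) ≠ 0) →
        (∀ Φ ∈ Z, MvPolynomial.eval x Φ ≠ 0) →
        ∀ σ : Place k → Fin r → Fin q, (∀ v ∈ S, Function.Injective (σ v)) →
          (∀ v ∈ S, ∀ i, i ∉ Set.range (σ v) → ∀ j,
            localHeight v (d i) (F i) x ≤ localHeight v (d (σ v j)) (F (σ v j)) x) →
          ∀ y z : Place k → Fin r → ℝ,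
          (∀ v ∈ S, ∀ j, 0 ≤ y v j ∧ 0 ≤ z v j ∧
            y v j + z v j ≤ localHeight v (d (σ v j)) (F (σ v j)) x) →
          (∀ v ∈ S, ∀ i j, z v i ≤ 2 * z v j) →
          ∑ v ∈ S, ∑ i, localHeight v (d i) (F i) x ≤ (r + 1 + ε) * height x + C +
            ∑ v ∈ S, (∑ j, (1 - 1 / (d (σ v j) : ℝ)) *
                (localHeight v (d (σ v j)) (F (σ v j)) x - z v j) +
              ∑ j, y v j / d (σ v j) - r * (∏ j, y v j) ^ ((1 : ℝ) / r)) := by
  classical
  obtain ⟨t, Z, C, hZ, hC⟩ := Run7.h684.VC.final hr0 hr F d hd hF hno htr S ε hε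
  set N : ℝ := ((Module.finrank ℚ k : ℕ) : ℝ) with hN
  have hN0 : (0 : ℝ) < N := by
    rw [hN]
    exact_mod_cast Module.finrank_pos
  refine ⟨t, Z, C / N, hZ, fun x hx hxF hxZ σ hσ hoth y z hyz hzz => ?_⟩
  have hl : ∀ v i, localHeight v (d i) (F i) x =
      Pool.Agent.W180.OP.wt v * Pool.Agent.W180.OP.lam (Pool.Agent.W180.OP.av v) (d i) (F i) x /
        N := by
    intro v i
    rcases v with w | p
    · rfl
    · show Real.log _ / _ = 1 * _ / _
      rw [one_mul]
      rfl
  have hwt : ∀ v : Place k, 0 < Pool.Agent.W180.OP.wt v := by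
    intro v
    rcases v with w | p
    · show (0 : ℝ) < (w.mult : ℝ)
      exact_mod_cast InfinitePlace.mult_pos
    · exact one_pos
  have hl' : ∀ v i, Pool.Agent.W180.OP.lam (Pool.Agent.W180.OP.av v) (d i) (F i) x =
      N / Pool.Agent.W180.OP.wt v * localHeight v (d i) (F i) x := by
    intro v i
    rw [hl v i]
    have := (hwt v).ne'
    field_simp
  have hpos : ∀ v : Place k, 0 ≤ N / Pool.Agent.W180.OP.wt v := fun v =>
    (div_pos hN0 (hwt v)).le
  have h1 := hC x hx hxF hxZ σ hσ (fun v hv i hi j => by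
      rw [hl' v i, hl' v (σ v j)]
      exact mul_le_mul_of_nonneg_left (hoth v hv i hi j) (hpos v))
    (fun v j => N / Pool.Agent.W180.OP.wt v * y v j)
    (fun v j => N / Pool.Agent.W180.OP.wt v * z v j)
    (fun v hv j => mul_nonneg (hpos v) (hyz v hv j).1)
    (fun v hv j => mul_nonneg (hpos v) (hyz v hv j).2.1)
    (fun v hv j => by
      rw [hl' v (σ v j), ← mul_add]
      exact mul_le_mul_of_nonneg_left (hyz v hv j).2.2 (hpos v))
    (fun v hv i j => by
      have h4 := mul_le_mul_of_nonneg_left (hzz v hv i j) (hpos v)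
      linarith)
  have h2 : ∀ v ∈ S, Pool.Agent.W180.OP.wt v * (∑ i, Pool.Agent.W180.OP.lam
      (Pool.Agent.W180.OP.av v) (d i) (F i) x) = N * ∑ i, localHeight v (d i) (F i) x := by
    intro v _
    have e1 := (hwt v).ne'
    rw [Finset.mul_sum, Finset.mul_sum]
    refine Finset.sum_congr rfl fun i _ => ?_
    rw [hl' v i]
    field_simp
  have h3 : ∀ v ∈ S, Pool.Agent.W180.OP.wt v *
      Run7.h684.VC.defect (fun j => d (σ v j))
        (fun j => Pool.Agent.W180.OP.lam (Pool.Agent.W180.OP.av v) (d (σ v j)) (F (σ v j)) x)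
        (fun j => N / Pool.Agent.W180.OP.wt v * y v j)
        (fun j => N / Pool.Agent.W180.OP.wt v * z v j) =
      N * (∑ j, (1 - 1 / (d (σ v j) : ℝ)) *
                (localHeight v (d (σ v j)) (F (σ v j)) x - z v j) +
              ∑ j, y v j / d (σ v j) - r * (∏ j, y v j) ^ ((1 : ℝ) / r)) := by
    intro v hv
    have e1 := (hwt v).ne'
    have e2 : (fun j => Pool.Agent.W180.OP.lam (Pool.Agent.W180.OP.av v) (d (σ v j))
        (F (σ v j)) x) = fun j => N / Pool.Agent.W180.OP.wt v *
          localHeight v (d (σ v j)) (F (σ v j)) x := by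
      funext j
      exact hl' v (σ v j)
    rw [e2, Run7.h684.VC.defect_smul hr0 _ _ _ _ (fun j => (hyz v hv j).1) (hpos v),
      ← mul_assoc, mul_div_cancel₀ _ e1]
    rfl
  rw [Finset.sum_congr rfl h2, Finset.sum_congr rfl h3, ← Finset.mul_sum, ← Finset.mul_sum] at h1
  have h4 : (r + 1 + ε) * height x + C / N = ((r + 1 + ε) * Height.logHeight x + C) / N := by
    rw [height, ← hN]
    ring
  rw [h4, ← sub_le_iff_le_add, le_div_iff₀ hN0]
  linarith

end Pool.Agent.Results.MP_17a322_nt.TransversalCrossings
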